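import Mathlib

set_option autoImplicit false

/-! Bateman's question on `(p^r-1)/(p-1)` when one exponent is three (helper634). -/

namespace Pool.Agent.Results.MP_56ee40_nt.CubeRepresentation

/-- `1 + p + … + p^(r-1)` -/
def R (p r : ℕ) : ℕ := ∑ i ∈ Finset.range r, p ^ i

private lemma R_succ (p r : ℕ) : R p (r + 1) = R p r + p ^ r := Finset.sum_range_succ _ _

private lemma R_mul (p : ℕ) (m : ℕ) : p * R p m + 1 = p ^ m + R p m := by
  induction m with
  | zero => simp [R]
  | succ m ih => rw [R_succ, pow_succ]; linarith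

private lemma R_even (p : ℕ) (k : ℕ) : p + 1 ∣ R p (2 * k) := by
  induction k with
  | zero => simp [R]
  | succ k ih =>
    have : R p (2 * (k + 1)) = R p (2 * k) + p ^ (2 * k) * (p + 1) := by
      rw [show 2 * (k + 1) = 2 * k + 1 + 1 by ring, R_succ, R_succ]; ring
    rw [this]
    exact dvd_add ih (dvd_mul_left _ _)

private lemma R_double (p m : ℕ) : R p (m + m) = (p ^ m + 1) * R p m := by
  have h1 : ∀ j : ℕ, R p (m + j) = R p m + p ^ m * R p j := by
    intro j
    induction j with
    | zero => simp [R]
    | succ j ih => rw [← Nat.add_assoc, R_succ, ih, R_succ, pow_add]; ring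
  rw [h1 m]; ring

private lemma R_shift (p r : ℕ) : R p (r + 1) = 1 + p * R p r := by
  have h1 := R_mul p r
  rw [R_succ]; omega

/-- If a prime `N` is `1 + q + q^2` with `q` prime, and `N = 1 + p + … + p^(r-1)` for an integer
`p ≥ 2` and `r ≥ 3` with `(p, r) ≠ (q, 3)`, then `N = 31`, `p = 2`, `r = 5` and `q = 5`. -/
theorem result (N p q r : ℕ) (hN : N.Prime) (hp2 : 2 ≤ p) (hq : q.Prime) (hr : 3 ≤ r)
    (hne : (p, r) ≠ (q, 3)) (h1 : N = R p r) (h2 : N = R q 3) :
    N = 31 ∧ p = 2 ∧ r = 5 ∧ q = 5 := by
  have hq2 := hq.two_le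
  have hmono : ∀ a b : ℕ, a ≤ b → R p a ≤ R p b := fun a b hab =>
    Finset.sum_le_sum_of_subset (Finset.range_subset_range.2 hab)
  have hR3 : ∀ x : ℕ, R x 3 = 1 + x + x ^ 2 := by
    intro x
    simp [R, Finset.sum_range_succ]
  have hpq : q ≠ p := by
    rintro rfl
    apply hne
    have hr3 : r = 3 := by
      by_contra hr3
      have h4 := hmono 4 r (by omega)
      have h5 : R q 4 = R q 3 + q ^ 3 := R_succ q 3
      have h6 : 0 < q ^ 3 := by positivity
      omega
    rw [hr3]
  -- `r` is odd
  obtain ⟨k, hk | hk⟩ := Nat.even_or_odd' r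
  · exfalso
    have h3 : p + 1 ∣ N := by rw [h1, hk]; exact R_even p k
    rcases (Nat.dvd_prime hN).1 h3 with h4 | h4
    · omega
    · have h5 := hmono 3 r hr
      rw [hR3, ← h1, ← h4] at h5
      have : 0 < p ^ 2 := by positivity
      omega
  · set m := k with hm
    have hm1 : 1 ≤ m := by omega
    set s := R p m with hs
    have e1 : N = 1 + p * ((p ^ m + 1) * s) := by
      rw [h1, hk, R_shift, two_mul, R_double]
    have e2 : N = 1 + q + q ^ 2 := by rw [h2, hR3]
    have e3 : q * (q + 1) = p * ((p ^ m + 1) * s) := by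
      have : 1 + q + q ^ 2 = 1 + p * ((p ^ m + 1) * s) := by rw [← e1, e2]
      nlinarith
    have e4 : p * s + 1 = p ^ m + s := R_mul p m
    have hs1 : 1 ≤ s := by
      have : R p 1 ≤ R p m := hmono 1 m hm1
      have h0 : R p 1 = 1 := by simp [R]
      omega
    have hpm : 2 ≤ p ^ m := hp2.trans (Nat.le_self_pow (by omega) p)
    have hsle : s < p ^ m := by nlinarith
    have hd : q ∣ p * ((p ^ m + 1) * s) := ⟨q + 1, e3.symm⟩
    rcases (Nat.Prime.dvd_mul hq).1 hd with h | h
    · exfalso
      obtain ⟨c, hc⟩ := h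
      have h6 : q * (q + 1) = q * (c * ((p ^ m + 1) * s)) := by
        rw [e3]; nth_rewrite 1 [hc]; ring
      have h7 := Nat.eq_of_mul_eq_mul_left hq.pos h6
      have hpm1 : p ≤ p ^ m := Nat.le_self_pow (by omega) p
      have h8 : p + 1 ≤ (p ^ m + 1) * s := by nlinarith
      rcases Nat.lt_or_ge c 2 with h9 | h9
      · have hc1 : c = 1 := by
          rcases Nat.eq_zero_or_pos c with h0 | h0
          · rw [h0] at hc; omega
          · omega
        rw [hc1, mul_one] at hc
        exact hpq hc.symm
      · have h10 : 2 * (p + 1) ≤ c * ((p ^ m + 1) * s) := Nat.mul_le_mul h9 h8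
        have h11 : q * 2 ≤ p := by rw [hc]; exact Nat.mul_le_mul_left _ h9
        omega
    · rcases (Nat.Prime.dvd_mul hq).1 h with h | h
      · obtain ⟨t, ht⟩ := h
        have ht1 : 1 ≤ t := by
          rcases Nat.eq_zero_or_pos t with h0 | h0
          · rw [h0, mul_zero] at ht; omega
          · exact h0
        have e5 : q + 1 = p * (t * s) := by
          have h6 : q * (q + 1) = q * (p * (t * s)) := by
            rw [e3, ht]; ring
          exact Nat.eq_of_mul_eq_mul_left hq.pos h6
        have e6 : p ^ m + 1 + t = t * t * (p * s) := by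
          calc p ^ m + 1 + t = t * (q + 1) := by rw [ht]; ring
            _ = t * t * (p * s) := by rw [e5]; ring
        have hps : p ^ m ≤ p * s := by omega
        have ht' : t = 1 := by
          by_contra hne1
          have ht2 : 2 ≤ t := by omega
          have h7 : t * t * p ^ m ≤ p ^ m + 1 + t := by
            rw [e6]; exact Nat.mul_le_mul_left _ hps
          have h8 : 2 * t * p ^ m ≤ t * t * p ^ m :=
            Nat.mul_le_mul_right _ (Nat.mul_le_mul_right _ ht2)
          nlinarith
        rw [ht'] at e6 ht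
        have hs3 : s = 3 := by omega
        rw [hs3] at e4
        have hdp : p ∣ p ^ m := dvd_pow_self p (by omega)
        have hd2 : p ∣ 2 := by
          have h9 : p ∣ p ^ m + 2 := ⟨3, by omega⟩
          exact (Nat.dvd_add_right hdp).1 h9
        have hp2' : p = 2 := le_antisymm (Nat.le_of_dvd (by norm_num) hd2) hp2
        have h10 : p ^ m = 4 := by omega
        have hm2 : m = 2 := by
          rw [hp2'] at h10
          exact Nat.pow_right_injective (le_refl 2) (by simpa using h10)
        have hq5 : q = 5 := by omega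
        refine ⟨?_, hp2', by omega, hq5⟩
        rw [e2, hq5]
        norm_num
      · exfalso
        have hqs : q ≤ s := Nat.le_of_dvd hs1 h
        have h3 : q * (q + 1) ≤ s * (s + 1) := Nat.mul_le_mul hqs (by omega)
        rw [e3] at h3
        have h4 : s * (s + 1) < s * (p * (p ^ m + 1)) := by
          apply Nat.mul_lt_mul_of_pos_left _ hs1
          nlinarith
        have h5 : p * ((p ^ m + 1) * s) = s * (p * (p ^ m + 1)) := by ring
        omega

end Pool.Agent.Results.MP_56ee40_nt.CubeRepresentation
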